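import Pool.Agent.Helper87_PFJ.PZ
import Pool.Agent.Helper87_PFSH.Asm
import Pool.Agent.Helper87_PFB.CTR
import Pool.Agent.Helper87_PFB.RKO
import Pool.Agent.Helper76_PFB.G_BIP
import Pool.Agent.Helper69_PFB.Fce
import Pool.Agent.Helper10_PFB.FPC
import Pool.Agent.Helper41_PFB.Fix
import Pool.Agent.Helper18_PFJ.G_BOA
import Pool.Agent.Helper18_PFJ.G_FCU
import Pool.Agent.Helper94_PFJ.G_NUN
import Pool.Agent.Helper94_PFJ.G_EVB
import Pool.Agent.Helper33_PFJ.Chb
import Pool.Agent.Helper33_PFJ.Pzk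
import Pool.Agent.Helper33_PFJ.Stc
import Pool.Agent.Helper33_PFJ.Fc2
import Pool.Agent.Helper3_PFJ.DEC
import Pool.Agent.Helper3_PFJ.EXT
import Pool.Agent.Helper13_PFJ.ZB2
import Pool.Agent.Helper13_PFJ.SE2
import Pool.Agent.Helper13_PFJ.BP2
import Pool.Agent.Helper76_PFJ.EI2
import Pool.Agent.Helper76_PFJ.UNF
import Pool.Agent.Helper76_PFJ.CCJ
import Pool.Agent.Helper41_PFJ.Bpb
import Pool.Agent.Helper39_PFJ.BLM
import Pool.Agent.Helper39_PFJ.NSF
import Pool.Agent.Helper69_PFJ.Lsc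
import Pool.Agent.Helper10_PFJ.LSF
import Pool.Agent.Helper10_PFJ.FMX
import Pool.Agent.Helper90_PFJ.BFA
import Pool.Agent.Helper24_PFJ.BCP
import Pool.Agent.Helper35_PFJ.BBS
import Pool.Agent.Helper84_PFJ.Cci
import Pool.Agent.Helper84_PFJ.Clf
import Pool.Agent.Helper84_PFJ.Sh2
import Pool.Agent.Helper60_PFJ.A0S
import Pool.Agent.Helper60_PFJ.AAS
import Pool.Agent.Helper60_PFJ.DSS
import Pool.Agent.Helper82_PFJ.DSB
import Pool.Agent.Helper82_PFJ.FIB
import Pool.Agent.Helper32_PFJ.Img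
import Pool.Agent.Helper32_PFJ.Mns
import Pool.Agent.Helper83_PFJ.MXE
import Pool.Agent.Helper25_PFJ.PRB
import Pool.Agent.Helper52_PFJ.PSI
import Pool.Agent.Helper67_PFJ.SH1
import Pool.Agent.Helper88_PFJ.SH3
import Pool.Agent.Helper77_PFJ.ZSS

/-! Assembly of section G of squad PFJ. -/

set_option autoImplicit false

namespace Pool.Agent.PFJ.H87

open Pool.Agent.PFS

theorem boaF : BoaStmt := H18.g_boa H60.elm
theorem fceF : PFB.FceStmt := PFB.H69.fce
theorem fcuF : FcuStmt := H18.g_fcu boaF fceF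
theorem nunF : NunStmt := H94.g_nun H60.lin
theorem chbF : ChbStmt := H33.chb fcuF
theorem decF : DecStmt := H3.dec boaF fcuF
theorem evbF : EvbStmt := H94.g_evb boaF decF
theorem zb2F : Zb2Stmt := H13.zb2 H60.elm H60.zom boaF evbF
theorem ei2F : Ei2Stmt := H76e.ei2
theorem bipF : PFB.BipStmt := PFB.H76.bip PFB.H87.ctr PFB.H87.rko
theorem fpcF : PFB.FpcStmt := PFB.H10.fpc fceF
theorem bpbF : BpbStmt := H41.bpb fceF fpcF bipF
theorem bp2F : Bp2Stmt := H13.bp2 fcuF chbF nunF zb2F ei2F bpbF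
theorem fixF : PFB.FixStmt := PFB.H41.fix PFS.H87.cmf PFS.H81.cmc PFS.H3.prp
theorem se2F : Se2Stmt := H13.se2 nunF zb2F ei2F fixF
theorem pzkF : PzkStmt := H33.pzk bp2F se2F

/-! all other rows -/

theorem imgF : ImgStmt := H32.img
theorem lscF : LscStmt := H69.lsc
theorem lsfF : LsfStmt := H10.lsf
theorem bfaF : BfaStmt := H90.bfa
theorem unfF : UnfStmt := H76.unf
theorem bcpF : BcpStmt := H24.bcp bfaF
theorem stcF : StcStmt := H33.stc bfaF unfF
theorem extF : ExtStmt := H3.ext bfaF unfF bcpF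
theorem fc2F : Fc2Stmt := H33.fc2 bcpF
theorem prbF : PrbStmt := H25.prb bfaF unfF extF
theorem bacF : BacStmt := H69.bac imgF
theorem blmF : BlmStmt := H39.blm lscF lsfF bfaF
theorem nsfF : NsfStmt := H39.nsf
theorem a0sF : A0sStmt := H60.a0s
theorem aasF : AasStmt := H60.aas bfaF unfF a0sF
theorem mnsF : MnsStmt := H32.mns nsfF aasF
theorem zssF : ZssStmt := H77.zss imgF stcF prbF bacF blmF nsfF
theorem dssF : DssStmt := H60.dss mnsF zssF nsfF aasF
theorem fmxF : FmxStmt := H10.fmx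
theorem psiF : PsiStmt := H52.psi bfaF
theorem supF : SupStmt := H52.sup bfaF
theorem mxeF : MxeStmt := H83.mxe
theorem clfF : ClfStmt := H84.clf
theorem bbsF : BbsStmt := H35.bbs zssF aasF
theorem sh1F : Sh1Stmt := H67.sh1 bfaF unfF bcpF extF fc2F
theorem sh2F : Sh2Stmt := H84.sh2
theorem sh3F : Sh3Stmt := H88.sh3 sh1F sh2F
theorem cciF : CciStmt := H84.cci bfaF fmxF psiF
theorem ccjF : CcjStmt := H76.ccj bfaF bcpF extF fc2F aasF fmxF psiF supF
theorem dsbF : DsbStmt := H82.dsb lsfF stcF dssF bbsF aasF sh3F cciF ccjF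
theorem pzF : PzStmt := pz blmF dsbF stcF pzkF

/-- the join theorem, all rows plugged in -/
theorem fibF : FibStmt := H82.fib clfF stcF extF mxeF pzF

end Pool.Agent.PFJ.H87
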