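import Pool.Agent.PFJ.StmtsG
import Pool.Agent.Helper82_PFJ.FIB

/-! Adapter: section G (PZK) with the discreteness rows gives `PzStmt`. -/

set_option autoImplicit false

open Matrix Filter Topology

namespace Pool.Agent.PFJ.H87

open Pool.Agent.PFS

theorem limB (blm : BlmStmt) {n : ℕ} {C : Set (V n)} {Γ : Subgroup (GL (Fin n) ℝ)} (h : CC C Γ)
    {K : ℕ} (hK : 3 ≤ K) : LimB C Γ K := by
  intro L x β p hb hp hx
  obtain ⟨φ, L', w, h1, h2, _, h4, h5, h6, h7⟩ := blm n C Γ h K hK L x β p hb hp hx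
  exact ⟨φ, L', w, h1, h7, h2, h4, h5, h6⟩

theorem pz (blm : BlmStmt) (dsb : DsbStmt) (stc : StcStmt) (pzk : PzkStmt) : PzStmt := by
  intro n C Γ h k hk hmax P hP L w β hbox hW
  have hK : 3 ≤ k + 1 := by omega
  have hD : Dat C Γ (k + 1) P :=
    { toCC := h
      three := hK
      fam := hP
      strict := fun L' w' β' hb _ => stc n C Γ h (k + 1) hK hmax L' w' β' hb
      lim := limB blm h hK
      dsc := by
        intro L' w' β' Lm x βm hb1 hP1 hb2 hP2 hl hf
        exact dsb n C Γ h (k + 1) hK hmax P hP L' w' β' Lm x βm hb1 hP1 hb2 hP2 hf hl }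
  exact pzk n C Γ k P hD L w β hbox hW

end Pool.Agent.PFJ.H87
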